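import Pool.Agent.H63.Bo1

set_option autoImplicit false

namespace Pool.Agent.Results.MP_6f07cb_gt.Cube

open FreeGroup Matrix

/-- the braid relation `s1 s2 s1 = s2 s1 s2` -/
def rels : Set (FreeGroup (Fin 2)) := {of 0 * of 1 * of 0 * (of 1 * of 0 * of 1)⁻¹}

/-- the braid group on three strands -/
abbrev B3 := PresentedGroup rels

/-- the free group of rank three -/
abbrev F3 := FreeGroup (Fin 3)

/-- Artin automorphism of the first generator -/
def a1 : MulAut F3 :=
  MonoidHom.toMulEquiv (lift ![of 0 * of 1 * (of 0)⁻¹, of 0, of 2])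
    (lift ![of 1, (of 1)⁻¹ * of 0 * of 1, of 2])
    (by ext i; fin_cases i <;> simp [mul_assoc]) (by ext i; fin_cases i <;> simp [mul_assoc])

/-- Artin automorphism of the second generator -/
def a2 : MulAut F3 :=
  MonoidHom.toMulEquiv (lift ![of 0, of 1 * of 2 * (of 1)⁻¹, of 1])
    (lift ![of 0, of 2, (of 2)⁻¹ * of 1 * of 2])
    (by ext i; fin_cases i <;> simp [mul_assoc]) (by ext i; fin_cases i <;> simp [mul_assoc])

theorem artin_rel : ∀ r ∈ rels, lift ![a1, a2] r = 1 := by
  intro r hr
  rw [Set.mem_singleton_iff.1 hr, _root_.map_mul, _root_.map_inv, mul_inv_eq_one]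
  apply MulEquiv.toMonoidHom_injective
  ext i
  fin_cases i <;> simp [a1, a2, mul_assoc]

/-- the Artin action -/
def artin : B3 →* MulAut F3 := PresentedGroup.toGroup artin_rel

/-- real Hahn series with rational exponents; they contain the Puiseux series -/
abbrev E := HahnSeries ℚ ℝ

/-- the variable -/
noncomputable def t : E := HahnSeries.single 1 1

theorem t_ne : t ≠ 0 := by simp [t]

/-- reduced Burau matrix of the first generator -/
noncomputable def b1 : GL (Fin 2) E :=
  GeneralLinearGroup.mkOfDetNeZero !![-t, 1; 0, 1] (by simp [det_fin_two, t_ne])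

/-- reduced Burau matrix of the second generator -/
noncomputable def b2 : GL (Fin 2) E :=
  GeneralLinearGroup.mkOfDetNeZero !![1, 0; t, -t] (by simp [det_fin_two, t_ne])

theorem burau_rel : ∀ r ∈ rels, lift ![b1, b2] r = 1 := by
  intro r hr
  rw [Set.mem_singleton_iff.1 hr, _root_.map_mul, _root_.map_inv, mul_inv_eq_one]
  apply Units.ext
  ext i j : 1
  fin_cases i <;> fin_cases j <;> simp [b1, b2, Matrix.mul_apply, Fin.sum_univ_two]

/-- the reduced Burau representation, entries read in `E` -/
noncomputable def burau : B3 →* GL (Fin 2) E := PresentedGroup.toGroup burau_rel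

/-- a bi-order -/
def IsBiOrder {G : Type} [Group G] (lt : G → G → Prop) : Prop :=
  IsStrictTotalOrder G lt ∧ ∀ a b c, lt a b → lt (c * a) (c * b) ∧ lt (a * c) (b * c)

/-- the Artin automorphism fixes a bi-order -/
def OrderPreserving (β : B3) : Prop :=
  ∃ lt : F3 → F3 → Prop, IsBiOrder lt ∧ ∀ a b, lt (artin β a) (artin β b) ↔ lt a b

/-- the braid `(s1 s2⁻¹)^3` -/
def cube : B3 := (PresentedGroup.of 0 * (PresentedGroup.of 1)⁻¹) ^ 3

theorem artin_cube : artin cube = (a1 * a2⁻¹) ^ 3 := by
  simp [cube, artin]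

theorem burau_cube : burau cube = (b1 * b2⁻¹) ^ 3 := by
  simp [cube, burau]

theorem ab_cube (g : F3) : Abelianization.of (artin cube g) = Abelianization.of g := by
  have : Abelianization.of.comp (artin cube).toMonoidHom = (Abelianization.of : F3 →* _) := by
    rw [artin_cube]
    ext i
    have h (x y : Abelianization F3) : x * y * x⁻¹ = y := by rw [mul_comm x y, mul_inv_cancel_right]
    have h' (x y : Abelianization F3) : x⁻¹ * y * x = y := by
      rw [mul_comm x⁻¹ y, inv_mul_cancel_right]
    have k0 : ∀ j, Abelianization.of ((a1 * a2⁻¹) (of j)) =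
        Abelianization.of (of (![1, 2, 0] j) : F3) := by
      intro j
      fin_cases j <;> simp [a1, a2, MulAut.inv_def, MonoidHom.toMulEquiv, h, h']
    have k : ∀ g, Abelianization.of ((a1 * a2⁻¹) g) =
        lift (fun j => Abelianization.of (of (![1, 2, 0] j) : F3)) g := by
      intro g
      have : Abelianization.of.comp (a1 * a2⁻¹).toMonoidHom =
          lift (fun j => Abelianization.of (of (![1, 2, 0] j) : F3)) := by
        ext j; simpa using k0 j
      exact DFunLike.congr_fun this g
    have k2 : ∀ g h : F3, Abelianization.of g = Abelianization.of h →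
        Abelianization.of ((a1 * a2⁻¹) g) = Abelianization.of ((a1 * a2⁻¹) h) := by
      intro g h e
      have := congrArg (Abelianization.map (a1 * a2⁻¹).toMonoidHom) e
      simpa using this
    have k3 := k2 _ _ (k2 _ _ (k0 i))
    rw [k2 _ _ (k0 _), k0] at k3
    simp only [pow_succ, pow_zero, one_mul, MonoidHom.comp_apply, MulEquiv.coe_toMonoidHom,
      MulAut.mul_apply] at k3 ⊢
    rw [k3]
    fin_cases i <;> rfl
  exact DFunLike.congr_fun this g

theorem alpha : ((b1 * b2⁻¹ : GL (Fin 2) E) : Matrix (Fin 2) (Fin 2) E) =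
    !![1 - t, -t⁻¹; 1, -t⁻¹] := by
  have h := t_ne
  have : ((b1 : GL (Fin 2) E) : Matrix (Fin 2) (Fin 2) E) = !![1 - t, -t⁻¹; 1, -t⁻¹] * b2 := by
    ext i j : 1
    fin_cases i <;> fin_cases j <;> simp [b1, b2, Matrix.mul_apply, Fin.sum_univ_two] <;> field_simp <;> ring
  rw [Units.val_mul, this, mul_assoc, Units.mul_inv, mul_one]

theorem result : OrderPreserving cube ∧
    ∀ z : E, (burau cube : Matrix (Fin 2) (Fin 2) E).charpoly.IsRoot z → z.leadingCoeff < 0 := by
  constructor
  · obtain ⟨lt, h1, h2, h3⟩ := Pool.Agent.H63.Bo.exists_order (Fin 3)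
    exact ⟨lt, ⟨h1, h2⟩, h3 (artin cube).toMonoidHom ab_cube⟩
  · intro z hz
    have h := t_ne
    have tr (M : Matrix (Fin 2) (Fin 2) E) :
        (M ^ 3).trace = M.trace ^ 3 - 3 * M.trace * M.det := by
      simp only [trace_fin_two, det_fin_two, pow_succ, pow_zero, one_mul, Matrix.mul_apply,
        Fin.sum_univ_two]
      ring
    have d : (!![1 - t, -t⁻¹; 1, -t⁻¹] : Matrix (Fin 2) (Fin 2) E).det = 1 := by
      simp [det_fin_two]; field_simp; ring
    rw [burau_cube, Units.val_pow_eq_pow_val, alpha, charpoly_fin_two, tr, det_pow, d] at hz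
    have e : z ^ 2 + 1 = ((1 - t - t⁻¹) ^ 3 - 3 * (1 - t - t⁻¹)) * z := by
      simp [Polynomial.IsRoot, trace_fin_two] at hz
      linear_combination hz
    have tp : (0 : Lex E) < toLex t := by
      rw [← HahnSeries.leadingCoeff_pos_iff]; simp [t]
    have t1 : toLex t + toLex t + toLex t + toLex t < (1 : Lex E) := by
      rw [HahnSeries.lt_iff]
      refine ⟨0, fun j hj => ?_, by simp [t]⟩
      have h1 : j ≠ 1 := by rintro rfl; norm_num at hj
      simp [t, h1, hj.ne]
    change (ofLex (toLex z)).leadingCoeff < 0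
    rw [HahnSeries.leadingCoeff_neg_iff]
    have e' : toLex z ^ 2 + 1 =
        ((1 - toLex t - (toLex t)⁻¹) ^ 3 - 3 * (1 - toLex t - (toLex t)⁻¹)) * toLex z := e
    generalize toLex z = y at *
    generalize toLex t = u at *
    have hu : 4 < u⁻¹ := by
      rw [lt_inv_comm₀ (by norm_num) tp]; linarith
    have h3 : 1 - u - u⁻¹ < -3 := by linarith
    generalize 1 - u - u⁻¹ = w at *
    have h4 : w ^ 3 - 3 * w < 0 := by nlinarith [mul_pos (sub_pos.2 h3) (sub_pos.2 h3)]
    by_contra hy
    nlinarith [mul_nonneg (neg_nonneg.2 h4.le) (not_lt.1 hy), sq_nonneg y]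

end Pool.Agent.Results.MP_6f07cb_gt.Cube
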